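import Mathlib
import Pool.Agent.Helper97.KB.Fin

/-!
# An upper bound for the number of irreducible characters of a block

For every `p`-block `B` of defect `d ≥ 1` of a finite group
`k(B) ≤ 9 p ^ (2 d - 3 + 2 ^ (2 - d))`; the general bound of Brauer and Feit (1959) is
`p ^ (2 d - 2)`.

Outline of the proof. Let `(u, b)` be a subsection of `B`, `u ≠ 1`, let `Q` be a defect group of `b`
and `M` the integral matrix of the contributions of `b`, `M² = |Q| M`. The restriction of a character
of `B` to `C_G(u)`, projected to `b` and split according to the action of `u`, gives integral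
vectors; their differences `f` satisfy `∑_f M f (M f)ᵀ = 2 (p - 1) |Q| M`. So the Gram matrix `P` of
all `f` with respect to `M` is a multiple of a projection of rank `l(b)`; it has rank one modulo `p`,
and for every character of height zero at least `2 (p - 1)` of its rows are not zero modulo `p`. An
integral matrix of this kind has `p |H|² ≤ 7 q² max(p, l)`, as small entries have vanishing `2 × 2`
minors. This is the bound for `k₀(B)` in (3). If `Q` is a defect group of `B` and `χ` has positive
height then the vectors `M f` are divisible by `p` (a statement on cyclotomic integers) and not all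
zero; the column of `M` which belongs to a character of height zero of `b` gives (2). Finally
`l(b) ≤ k(b')` for a block `b'` of `C_G(u)/⟨u⟩` whose defect groups have order at most `|Q| / |u|`,
every block `B` with `D ≠ 1` has a subsection `(u, b)` with `u` in the centre of `D` of order `p` such
that `b` has the defect of `B`, and (1) follows by induction.

`IsBlock`, `IsDefectGroup` are the definitions in `Pool.Agent.H254R3.IN`; `Induces` (`b^G = B`), `lB`
(the number of irreducible Brauer characters) and `HeightZero` are in `Pool.Agent.N20`.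
-/

open Pool.Agent.H254R3.IN Pool.Agent.N20

namespace Pool.Agent.Results.MP_a15589_al.BeyondBrauerFeit

/-- `k(B)`: the number of irreducible characters in `B` -/
noncomputable def k {G : Type} (B : Set (G → ℂ)) : ℕ := Nat.card B

/-- `k₀(B)`: the number of characters of height zero in `B`, `D` a defect group -/
noncomputable def kzero {G : Type} [Group G] (p : ℕ) (B : Set (G → ℂ)) (D : Subgroup G) : ℕ :=
  Nat.card {χ : G → ℂ // χ ∈ B ∧ HeightZero p D χ}

/-- Let `B` be a `p`-block of a finite group `G` with a defect group `D` of order `p ^ d`.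

(1) If `d ≥ 1` then `k(B) ≤ 9 p ^ (2 d - 3 + 2 ^ (2 - d))`.

(2) If `z` is an element of order `p ^ e > 1` of the centre of `D` then
`p ^ e (k₀(B) + p ^ 2 (k(B) - k₀(B))) ≤ |D| ^ 2`.

(3) Let `(u, b)` be a subsection of `B`: `u` is an element of order `p ^ f > 1` of `G` and `b` is a
block of `C_G(u)` with `b^G = B`, and let `Q` be a defect group of `b`. Then
`p k₀(B) ^ 2 ≤ 7 |Q| ^ 2 max(p, l(b))`; if `|Q| = p ^ c` and `f < c` then
`k₀(B) ≤ 8 p ^ (2 c - 2 - f + 2 ^ (1 - (c - f)))`. -/
theorem result {p : ℕ} (hp : p.Prime) (O : ValuationSubring ℂ) (hpO : (p : ℂ) ∈ O.nonunits)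
    {G : Type} [Group G] [Finite G] (B : Set (G → ℂ)) (hB : IsBlock O B) (D : Subgroup G)
    (hD : IsDefectGroup p O B D) (d : ℕ) (hd : Nat.card D = p ^ d) :
    (1 ≤ d → (k B : ℝ) ≤ 9 * (p : ℝ) ^ (2 * (d : ℝ) - 3 + 2 ^ (2 - (d : ℝ)))) ∧
    (∀ z ∈ D, (∀ x ∈ D, z * x = x * z) → ∀ e : ℕ, orderOf z = p ^ e → 1 ≤ e →
      kzero p B D ≤ k B ∧
      p ^ e * (kzero p B D + p ^ 2 * (k B - kzero p B D)) ≤ Nat.card D ^ 2) ∧
    (∀ (u : G) (f : ℕ), orderOf u = p ^ f → 1 ≤ f →
      ∀ b : Set (Subgroup.centralizer ({u} : Set G) → ℂ), IsBlock O b →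
      ∀ Q : Subgroup (Subgroup.centralizer ({u} : Set G)), IsDefectGroup p O b Q →
      Induces O B (Subgroup.centralizer ({u} : Set G)) b →
      p * kzero p B D ^ 2 ≤ 7 * Nat.card Q ^ 2 * max p (lB p b) ∧
      ∀ c : ℕ, Nat.card Q = p ^ c → f < c → (kzero p B D : ℝ) ≤
        8 * (p : ℝ) ^ (2 * (c : ℝ) - 2 - f + 2 ^ (1 - ((c : ℝ) - f)))) := by
  have := Fintype.ofFinite G
  haveI : Fact p.Prime := ⟨hp⟩
  have h0 : kzero p B D = Pool.Agent.Helper97.KB.k0 O B D :=
    Pool.Agent.Helper97.KB.k0_eq hpO hB hD
  have h1 : k B = Pool.Agent.Helper97.KB.k0 O B D + Pool.Agent.Helper97.KB.k1 O B D :=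
    Pool.Agent.Helper97.KB.card_eq_add hB D
  refine ⟨fun h => Pool.Agent.Helper97.KB.part_one hpO hB hD hd h, ?_, ?_⟩
  · intro z hz hzc e hze he
    rw [h1, h0]
    refine ⟨Nat.le_add_right _ _, ?_⟩
    rw [Nat.add_sub_cancel_left]
    exact Pool.Agent.Helper97.KB.part_two hpO hB hD hz hzc hze he
  · intro u f hu hf b hb Q hQ hbB
    rw [h0]
    exact Pool.Agent.Helper97.KB.part_three hpO hB hD hu hf hb hQ hbB

end Pool.Agent.Results.MP_a15589_al.BeyondBrauerFeit
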