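import Pool.Agent.Helper98.NG.Exc
import Pool.Graph.R_pool_sql_team_seeded_5cf16337.K3h50.KO.Main

/-!
# Brauer's k(B) conjecture: the number of exceptional groups

`O` is a valuation subring of `ℂ` whose maximal ideal contains the prime `p`; it defines the `p`-blocks
`B` of finite groups (`IsBlock`), as sets of irreducible characters, and `HasDefect p B d` says that the defect
groups of `B` have order `p ^ d`. `MoreThan P N x` (`Pool.Agent.Helper98.NG`) says that more than `x` finite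
groups of order at most `N`, up to isomorphism, have the property `P`.

For `p` odd let `f(N) = N ^ ((2 / 27 - δ) (log₂ N) ^ 2)`, where `δ > 0`. The number of all groups of order at most
`N` is `N ^ ((2 / 27 + o(1)) (log₂ N) ^ 2)` (Higman, Sims, Pyber). We show: if `k(B) > |D|` for one block of
one finite group, then for all large `N` more than `f(N)` groups of order at most `N` have such a block. The
conjecture is true if and only if for each `ε > 0` there is a `C` such that, for arbitrarily large `N`, at most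
`f(N)` groups of order at most `N` have a block with `k(B) > C |D| ^ (1 + ε)`. For `p = 2` the same is true with
`log₃` in place of `log₂`, and in general with `log_ℓ` for every prime `ℓ ≠ p`.

Proof: a violation of the conjecture gives a block which is stable under all field automorphisms with
`k(B) > |D|`; its tensor powers violate the weak inequality, and so do the products with the principal blocks
of arbitrary groups `A` of order a power of `ℓ`. We take for `A` the central extensions of `(ℤ/ℓ)^(2m)` by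
`(ℤ/ℓ)^m`.
-/

set_option autoImplicit false

open Filter

namespace Pool.Agent.Results.MP_a15589_al.ExceptionalGroups

open Pool.Agent.Helper98.NG Pool.Agent.Helper884 Pool.Agent.H254R3.IN Pool.Agent.Q288.MB
  Pool.Agent.K3h3.KB

variable {p : ℕ} [hp : Fact p.Prime] {O : ValuationSubring ℂ}

lemma not_dvd {ℓ : ℕ} (hℓ : ℓ.Prime) (hne : ℓ ≠ p) {A : Type} [Group A] [Finite A]
    (hA : IsPGroup ℓ A) : ¬ p ∣ Nat.card A := by
  have : Fact ℓ.Prime := ⟨hℓ⟩
  obtain ⟨n, hn⟩ := (IsPGroup.iff_card (p := ℓ) (G := A)).mp hA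
  rw [hn]
  intro h
  exact hne ((Nat.prime_dvd_prime_iff_eq hp.out hℓ).mp (hp.out.dvd_of_dvd_pow h)).symm

/-- the product of a block with the principal block of a group of order prime to `p` -/
lemma exists_prod' (hpO : (p : ℂ) ∈ O.nonunits) {G A : Type} [Group G] [Finite G] [Group A] [Finite A]
    (hA : ¬ p ∣ Nat.card A) {B : Set (G → ℂ)} {d : ℕ} (hB : IsBlock O B) (hd : HasDefect p B d) :
    ∃ B' : Set (G × A → ℂ), IsBlock O B' ∧ HasDefect p B' d ∧ Nat.card B' = Nat.card B := by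
  classical
  have := Fintype.ofFinite G
  have := Fintype.ofFinite A
  obtain ⟨χ, hχd⟩ : ∃ χ : A → ℂ, χ = fun g => (((1 : A →* ℂˣ) g : ℂˣ) : ℂ) := ⟨_, rfl⟩
  have hχ : IsIrr χ := by rw [hχd]; exact lin_irr (1 : A →* ℂˣ)
  have hb2 : IsBlock O ({χ} : Set (A → ℂ)) := block_singleton hpO hA hχ
  have hd2 : HasDefect p ({χ} : Set (A → ℂ)) 0 := by
    obtain ⟨d₀, hd₀⟩ := exists_defect hpO hb2
    obtain ⟨m, hm, hm2⟩ := hd₀
    have h1 : (Nat.card A).factorization p = 0 := Nat.factorization_eq_zero_of_not_dvd hA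
    rw [h1] at hm2
    have h2 : d₀ = 0 := by omega
    have h3 : HasDefect p ({χ} : Set (A → ℂ)) d₀ := ⟨m, hm, by rw [hm2, h1]⟩
    rwa [h2] at h3
  refine ⟨tenS B {χ}, tenS_block hB hb2, ?_, ?_⟩
  · have h := tenS_defect hB.irr hb2.irr hd hd2
    rw [add_zero] at h
    exact h
  · rw [card_tenS hB.irr hb2.irr]
    have : Nat.card ({χ} : Set (A → ℂ)) = 1 := by
      rw [Nat.card_eq_one_iff_unique]
      exact ⟨⟨fun a b => Subtype.ext (a.2.trans b.2.symm)⟩, ⟨⟨χ, rfl⟩⟩⟩
    rw [this, mul_one]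

/-- `G` has a `p`-block with `k(B) > C |D| ^ (1 + ε)` -/
def Exceptional (p : ℕ) (O : ValuationSubring ℂ) (ε C : ℝ) (G : Type) [Group G] : Prop :=
  ∃ (B : Set (G → ℂ)) (d : ℕ), IsBlock O B ∧ HasDefect p B d ∧
    C * ((p ^ d : ℕ) : ℝ) ^ (1 + ε) < (Nat.card B : ℝ)

lemma exceptional_prod {ℓ : ℕ} (hℓ : ℓ.Prime) (hne : ℓ ≠ p) (hpO : (p : ℂ) ∈ O.nonunits) {ε C : ℝ}
    {G : Type} [Group G] [Finite G] (h : Exceptional p O ε C G) (A : Type) [Group A] [Finite A]
    (hA : IsPGroup ℓ A) : Exceptional p O ε C (G × A) := by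
  obtain ⟨B, d, h1, h2, h3⟩ := h
  obtain ⟨B', h4, h5, h6⟩ := exists_prod' hpO (not_dvd hℓ hne hA) h1 h2
  exact ⟨B', d, h4, h5, by rw [h6]; exact h3⟩

omit hp in
lemma exceptional_of {G : Type} [Group G] {B : Set (G → ℂ)} {d : ℕ} (hB : IsBlock O B)
    (hd : HasDefect p B d) (h : p ^ d < Nat.card B) : Exceptional p O 0 1 G := by
  refine ⟨B, d, hB, hd, ?_⟩
  rw [add_zero, Real.rpow_one, one_mul]
  exact_mod_cast h

/-- **Brauer's `k(B)` conjecture and the number of exceptional groups.** Let `ℓ ≠ p` be a prime (for example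
`ℓ = 2` if `p` is odd) and `δ > 0`.
(1) If `k(B) > |D|` for some block `B` with defect group `D` of some finite group, then for all large `N` there are
more than `N ^ ((2 / 27 - δ) (log_ℓ N) ^ 2)` groups of order at most `N`, up to isomorphism, which have such a
block.
(2) `k(B) ≤ |D|` for all blocks of all finite groups if and only if for each `ε > 0` there is a `C` such that for
arbitrarily large `N` at most `N ^ ((2 / 27 - δ) (log_ℓ N) ^ 2)` groups of order at most `N` have a block with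
`k(B) > C |D| ^ (1 + ε)`. -/
theorem result (p : ℕ) [hp : Fact p.Prime] (O : ValuationSubring ℂ) (hpO : (p : ℂ) ∈ O.nonunits)
    (ℓ : ℕ) (hℓ : ℓ.Prime) (hne : ℓ ≠ p) (δ : ℝ) (hδ : 0 < δ) :
    ((∃ (G : Type) (_ : Group G) (B : Set (G → ℂ)) (d : ℕ), Finite G ∧ IsBlock O B ∧ HasDefect p B d ∧
        p ^ d < Nat.card B) → ∀ᶠ N : ℕ in atTop,
      MoreThan (fun G _ => Exceptional p O 0 1 G) N ((N : ℝ) ^ ((2 / 27 - δ) * Real.logb ℓ N ^ 2))) ∧
    ((∀ (G : Type) [Group G] [Finite G] (B : Set (G → ℂ)) (d : ℕ), IsBlock O B → HasDefect p B d →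
        Nat.card B ≤ p ^ d) ↔
      ∀ ε : ℝ, 0 < ε → ∃ C : ℝ, ∃ᶠ N : ℕ in atTop,
        ¬ MoreThan (fun G _ => Exceptional p O ε C G) N
          ((N : ℝ) ^ ((2 / 27 - δ) * Real.logb ℓ N ^ 2))) := by
  refine ⟨?_, ?_, ?_⟩
  · rintro ⟨G, _, B, d, _, hB, hd, h⟩
    exact moreThan (P := fun G _ => Exceptional p O 0 1 G) hℓ hδ (G := G)
      fun A _ _ hA => exceptional_prod hℓ hne hpO (exceptional_of hB hd h) A hA
  · intro h ε hε
    refine ⟨1, Eventually.frequently (Eventually.of_forall fun N => ?_)⟩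
    rintro ⟨k, F, hF, h2, h3, -⟩
    have h4 : 0 < k := by
      have h5 : (0 : ℝ) ≤ (N : ℝ) ^ ((2 / 27 - δ) * Real.logb ℓ N ^ 2) :=
        Real.rpow_nonneg (Nat.cast_nonneg _) _
      exact_mod_cast h5.trans_lt h2
    obtain ⟨h5, -, B, d, hB, hd, h6⟩ := h3 ⟨0, h4⟩
    have h7 := h (F ⟨0, h4⟩) B d hB hd
    have h8 : (1 : ℝ) ≤ ((p ^ d : ℕ) : ℝ) := by exact_mod_cast Nat.one_le_pow _ _ hp.out.pos
    have h9 : ((p ^ d : ℕ) : ℝ) ≤ ((p ^ d : ℕ) : ℝ) ^ (1 + ε) := by
      conv_lhs => rw [← Real.rpow_one ((p ^ d : ℕ) : ℝ)]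
      exact Real.rpow_le_rpow_of_exponent_le h8 (by linarith)
    rw [one_mul] at h6
    have h10 : (Nat.card B : ℝ) ≤ ((p ^ d : ℕ) : ℝ) := by exact_mod_cast h7
    linarith
  · intro h G _ _ B d hB hd
    by_contra hcon
    rw [not_le] at hcon
    obtain ⟨X, _, _, B₁, d₁, hX, hXQ, hB₁, hs, hd₁, hv₁⟩ :=
      exists_violation hpO (Multiplicative (ZMod 2)) hB hd hcon
    have hD : 0 < p ^ d₁ := pow_pos hp.out.pos d₁
    obtain ⟨ε, hε, h1⟩ := exists_eps hD hv₁ hD
    obtain ⟨C, hC⟩ := h ε hε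
    obtain ⟨t, ht⟩ := h1 C
    obtain ⟨B₂, a1, a0, a2, a3, a4, a5⟩ := exists_power hX hXQ hB₁ hs hd₁ t
    have hexc : Exceptional p O ε C (Fin t → X) := by
      refine ⟨B₂, t * d₁, a2, a4, ?_⟩
      have e1 : (((p ^ (t * d₁) : ℕ) : ℝ)) = (((p ^ d₁) ^ t : ℕ) : ℝ) := by
        rw [← pow_mul, mul_comm d₁ t]
      have hpos : (0 : ℝ) < (((p ^ d₁) ^ t : ℕ) : ℝ) := by exact_mod_cast pow_pos hD t
      rw [a5, e1, Real.rpow_add hpos, Real.rpow_one, ← mul_assoc]
      exact ht
    have h2 := moreThan (P := fun G _ => Exceptional p O ε C G) hℓ hδ (G := Fin t → X)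
      fun A _ _ hA => exceptional_prod hℓ hne hpO hexc A hA
    exact hC (h2.mono fun N hN hcon => hcon hN)

end Pool.Agent.Results.MP_a15589_al.ExceptionalGroups
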