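import Mathlib
import Pool.Agent.Helper98.KB.Block

/-!
An upper bound for the number of irreducible characters of a block in terms of the order of the
defect group and the number of irreducible Brauer characters.
-/

namespace Pool.Agent.Results.MP_a15589_al.SquareRootSaving

open Pool.Agent.H254R3.IN Pool.Agent.N20

/-- Let `B` be a `p`-block of a finite group `G` with defect group `D`, let `k(B)` be the number of
irreducible characters of `B` and `l(B)` the number of irreducible Brauer characters of `B`, and let
`m = min (l(B), k(B) - l(B))`. Then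
`k(B) ≤ |D| max (1, min (m / (p + 1), max (√(8 m / p), m / p ^ 2)))`.
So `k(B) ≤ |D|` if `m ≤ p + 1` and `k(B) ≤ |D| √(8 m / p)` if `p + 1 < m ≤ 8 p ^ 3`. -/
theorem result {G : Type} [Group G] [Finite G] {p : ℕ} (hp : p.Prime) (O : ValuationSubring ℂ)
    (hpO : (p : ℂ) ∈ O.nonunits) (B : Set (G → ℂ)) (hB : IsBlock O B) (D : Subgroup G)
    (hD : IsDefectGroup p O B D) (m : ℕ) (hm : m = min (lB p B) (Nat.card B - lB p B)) :
    (Nat.card B : ℝ) ≤ Nat.card D *
      max 1 (min ((m : ℝ) / (p + 1)) (max (√(8 * m / p)) (m / p ^ 2))) := by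
  have := Fintype.ofFinite G
  refine Pool.Agent.Helper98.KB.block_final hp hpO hB hD m ?_
  rcases min_choice (lB p B) (Nat.card B - lB p B) with h | h
  · exact Or.inl (hm.trans h)
  · exact Or.inr (hm.trans h)

end Pool.Agent.Results.MP_a15589_al.SquareRootSaving
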